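import Mathlib
import Pool.Agent.H1.CorDefs
import Pool.Agent.H1.CorA

open Pool.Agent.H1.Cor

universe u

theorem Pool.Agent.Results.MP_6331ea_an.Disproof.result :
    ∃ (A : Type) (_ : NormedCommRing A) (_ : NormedAlgebra ℂ A) (_ : CompleteSpace A)
      (_ : NormOneClass A), SPP.{u} A ∧ (∀ x : A, ¬ IsUnit x → IsTDZ x) ∧
        ∃ φ : A →ₐ[ℂ] ℂ, ¬ InCortex φ :=
  main
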